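import Pool.Agent.Helper70.SK.Stmts
import Pool.Agent.Helper70.SK.Lib

/-! Sticky Kakeya sets, module GEO: geometry of the cells. -/

namespace Pool.Agent.Helper70.SK

open Finset Pool.Agent.Helper70.DK

theorem geo_mem {m q : ℕ} (σ : Sy m q) (B : ℕ) (x : Fin m → ℤ) :
    x ∈ σ.X B ↔ ∀ c, 0 ≤ x c ∧ x c < (B : ℤ) ^ σ.n := by
  unfold Sy.X gr
  rw [Fintype.mem_piFinset]
  refine forall_congr' fun c => ?_
  rw [Finset.mem_Ico]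
  push_cast
  rfl

theorem geo_dx {m q : ℕ} (σ : Sy m q) (B k : ℕ) (hB : 2 ≤ B) (x x' : Fin m → ℤ)
    (h : σ.tr B k x = σ.tr B k x') (c : Fin m) :
    |((x c : ℤ) : ℝ) - ((x' c : ℤ) : ℝ)| ≤ (B : ℝ) ^ (σ.n - k) := by
  have hp : (0 : ℤ) < (B : ℤ) ^ (σ.n - k) := by positivity
  have e : x c / (B : ℤ) ^ (σ.n - k) = x' c / (B : ℤ) ^ (σ.n - k) := congrFun h c
  have a1 := Int.mul_ediv_add_emod (x c) ((B : ℤ) ^ (σ.n - k))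
  have a2 := Int.mul_ediv_add_emod (x' c) ((B : ℤ) ^ (σ.n - k))
  have b1 := Int.emod_nonneg (x c) hp.ne'
  have b2 := Int.emod_nonneg (x' c) hp.ne'
  have c1 := Int.emod_lt_of_pos (x c) hp
  have c2 := Int.emod_lt_of_pos (x' c) hp
  rw [e] at a1
  have : |x c - x' c| ≤ (B : ℤ) ^ (σ.n - k) := by
    rw [abs_le]
    constructor <;> linarith
  calc |((x c : ℤ) : ℝ) - ((x' c : ℤ) : ℝ)| = ((|x c - x' c| : ℤ) : ℝ) := by push_cast; rfl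
    _ ≤ (((B : ℤ) ^ (σ.n - k) : ℤ) : ℝ) := by exact_mod_cast this
    _ = (B : ℝ) ^ (σ.n - k) := by push_cast; rfl

theorem geo_diff {m q : ℕ} (σ : Sy m q) (B γ : ℕ) (x x' : Fin m → ℤ) (r : Fin q) :
    ((σ.Y B γ x r : ℤ) : ℝ) - ((σ.Y B γ x' r : ℤ) : ℝ) =
      ∑ c, ((σ.N γ r c : ℤ) : ℝ) * ((B : ℝ) ^ σ.a3 * (((σ.A x c : ℤ) : ℝ) - ((σ.A x' c : ℤ) : ℝ)) +
        ((σ.t γ : ℤ) : ℝ) * (((x c : ℤ) : ℝ) - ((x' c : ℤ) : ℝ))) := by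
  unfold Sy.Y
  push_cast
  rw [← Finset.sum_sub_distrib]
  refine Finset.sum_congr rfl fun c _ => ?_
  ring

theorem geo_in {m q : ℕ} (σ : Sy m q) (B : ℕ) (R κ D C : ℝ) (hB : 2 ≤ B) (hσ : σ.Ok B R κ D C)
    (γ : ℕ) (hγ : γ ∈ σ.G) (k : ℕ) (hk : k ≤ σ.n) (x x' : Fin m → ℤ) (hx : x ∈ σ.X B) (hx' : x' ∈ σ.X B)
    (h : σ.tr B k x = σ.tr B k x') (c : Fin m) :
    |(B : ℝ) ^ σ.a3 * (((σ.A x c : ℤ) : ℝ) - ((σ.A x' c : ℤ) : ℝ)) +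
        ((σ.t γ : ℤ) : ℝ) * (((x c : ℤ) : ℝ) - ((x' c : ℤ) : ℝ))| ≤
      (R + 1) * ((B : ℝ) ^ σ.a3 * (B : ℝ) ^ (σ.n - k)) := by
  have hB0 : (0 : ℝ) < B := by exact_mod_cast (by omega : 0 < B)
  have h1 := hσ.st k hk x hx x' hx' h c
  have h2 := geo_dx σ B k hB x x' h c
  have h3 := hσ.tb γ hγ
  have h4 : |((σ.t γ : ℤ) : ℝ)| ≤ (B : ℝ) ^ σ.a3 := by
    rw [abs_of_nonneg (by exact_mod_cast h3.1)]
    calc ((σ.t γ : ℤ) : ℝ) ≤ (((B : ℤ) ^ σ.a3 : ℤ) : ℝ) := by exact_mod_cast h3.2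
      _ = (B : ℝ) ^ σ.a3 := by push_cast; rfl
  have hp3 : (0 : ℝ) < (B : ℝ) ^ σ.a3 := by positivity
  have hpk : (0 : ℝ) < (B : ℝ) ^ (σ.n - k) := by positivity
  calc |(B : ℝ) ^ σ.a3 * (((σ.A x c : ℤ) : ℝ) - ((σ.A x' c : ℤ) : ℝ)) +
        ((σ.t γ : ℤ) : ℝ) * (((x c : ℤ) : ℝ) - ((x' c : ℤ) : ℝ))|
      ≤ |(B : ℝ) ^ σ.a3 * (((σ.A x c : ℤ) : ℝ) - ((σ.A x' c : ℤ) : ℝ))| +
        |((σ.t γ : ℤ) : ℝ) * (((x c : ℤ) : ℝ) - ((x' c : ℤ) : ℝ))| := abs_add_le _ _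
    _ = (B : ℝ) ^ σ.a3 * |((σ.A x c : ℤ) : ℝ) - ((σ.A x' c : ℤ) : ℝ)| +
        |((σ.t γ : ℤ) : ℝ)| * |((x c : ℤ) : ℝ) - ((x' c : ℤ) : ℝ)| := by
        rw [abs_mul, abs_mul, abs_of_pos hp3]
    _ ≤ (B : ℝ) ^ σ.a3 * (R * (B : ℝ) ^ (σ.n - k)) + (B : ℝ) ^ σ.a3 * (B : ℝ) ^ (σ.n - k) := by
        refine add_le_add (mul_le_mul_of_nonneg_left h1 hp3.le) ?_
        exact mul_le_mul h4 h2 (abs_nonneg _) hp3.le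
    _ = (R + 1) * ((B : ℝ) ^ σ.a3 * (B : ℝ) ^ (σ.n - k)) := by ring

theorem geo_e {m q : ℕ} (σ : Sy m q) (B k : ℕ) (hk : k ≤ σ.n) :
    (B : ℝ) ^ σ.e k = (B : ℝ) ^ σ.a1 * ((B : ℝ) ^ σ.a3 * (B : ℝ) ^ (σ.n - k)) := by
  rw [← pow_add, ← pow_add]
  congr 1
  unfold Sy.e
  omega

theorem st_GEO : ST_GEO := by
  intro m q B R κ D C σ hB hR hD hσ
  have hB0 : (0 : ℝ) < B := by exact_mod_cast (by omega : 0 < B)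
  refine ⟨?_, ?_, ?_, ?_⟩
  · intro γ hγ k hk x hx x' hx' h r
    rw [geo_diff]
    have key : ∀ c : Fin m, |((σ.N γ r c : ℤ) : ℝ) * ((B : ℝ) ^ σ.a3 * (((σ.A x c : ℤ) : ℝ) - ((σ.A x' c : ℤ) : ℝ)) +
        ((σ.t γ : ℤ) : ℝ) * (((x c : ℤ) : ℝ) - ((x' c : ℤ) : ℝ)))| ≤ D * (R + 1) * (B : ℝ) ^ σ.e k := by
      intro c
      rw [abs_mul, geo_e σ B k hk]
      calc |((σ.N γ r c : ℤ) : ℝ)| * |(B : ℝ) ^ σ.a3 * (((σ.A x c : ℤ) : ℝ) - ((σ.A x' c : ℤ) : ℝ)) +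
            ((σ.t γ : ℤ) : ℝ) * (((x c : ℤ) : ℝ) - ((x' c : ℤ) : ℝ))|
          ≤ (D * (B : ℝ) ^ σ.a1) * ((R + 1) * ((B : ℝ) ^ σ.a3 * (B : ℝ) ^ (σ.n - k))) :=
            mul_le_mul (hσ.nb γ hγ r c) (geo_in σ B R κ D C hB hσ γ hγ k hk x x' hx hx' h c)
              (abs_nonneg _) (by positivity)
        _ = D * (R + 1) * ((B : ℝ) ^ σ.a1 * ((B : ℝ) ^ σ.a3 * (B : ℝ) ^ (σ.n - k))) := by ring
    calc _ ≤ ∑ c, |((σ.N γ r c : ℤ) : ℝ) * ((B : ℝ) ^ σ.a3 * (((σ.A x c : ℤ) : ℝ) - ((σ.A x' c : ℤ) : ℝ)) +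
          ((σ.t γ : ℤ) : ℝ) * (((x c : ℤ) : ℝ) - ((x' c : ℤ) : ℝ)))| := Finset.abs_sum_le_sum_abs _ _
      _ ≤ ∑ _c : Fin m, D * (R + 1) * (B : ℝ) ^ σ.e k := Finset.sum_le_sum fun c _ => key c
      _ = m * D * (R + 1) * (B : ℝ) ^ σ.e k := by
          rw [Finset.sum_const, Finset.card_univ, Fintype.card_fin, nsmul_eq_mul]
          ring
  · intro Q rep hQ hrep γ hγ k hk x hx x' hx' h r
    obtain ⟨hrG, hrt, hrN⟩ := hrep γ hγ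
    have hQ1 : Q ≤ σ.a1 := hQ.trans hσ.n1
    have hQ3 : Q ≤ σ.a3 := hQ.trans hσ.n3
    have hpQ : (0 : ℝ) < (B : ℝ) ^ Q := by positivity
    have e1 : (B : ℝ) ^ (σ.a1 - Q) = (B : ℝ) ^ σ.a1 / (B : ℝ) ^ Q := by
      rw [eq_div_iff hpQ.ne', ← pow_add]
      congr 1
      omega
    have e3 : (B : ℝ) ^ (σ.a3 - Q) = (B : ℝ) ^ σ.a3 / (B : ℝ) ^ Q := by
      rw [eq_div_iff hpQ.ne', ← pow_add]
      congr 1
      omega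
    rw [geo_diff, geo_diff, ← Finset.sum_sub_distrib]
    have key : ∀ c : Fin m, |((σ.N γ r c : ℤ) : ℝ) * ((B : ℝ) ^ σ.a3 * (((σ.A x c : ℤ) : ℝ) - ((σ.A x' c : ℤ) : ℝ)) +
          ((σ.t γ : ℤ) : ℝ) * (((x c : ℤ) : ℝ) - ((x' c : ℤ) : ℝ))) -
        ((σ.N (rep γ) r c : ℤ) : ℝ) * ((B : ℝ) ^ σ.a3 * (((σ.A x c : ℤ) : ℝ) - ((σ.A x' c : ℤ) : ℝ)) +
          ((σ.t (rep γ) : ℤ) : ℝ) * (((x c : ℤ) : ℝ) - ((x' c : ℤ) : ℝ)))| ≤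
        (R + 1 + D) * (B : ℝ) ^ σ.e k / (B : ℝ) ^ Q := by
      intro c
      have hid : ((σ.N γ r c : ℤ) : ℝ) * ((B : ℝ) ^ σ.a3 * (((σ.A x c : ℤ) : ℝ) - ((σ.A x' c : ℤ) : ℝ)) +
          ((σ.t γ : ℤ) : ℝ) * (((x c : ℤ) : ℝ) - ((x' c : ℤ) : ℝ))) -
        ((σ.N (rep γ) r c : ℤ) : ℝ) * ((B : ℝ) ^ σ.a3 * (((σ.A x c : ℤ) : ℝ) - ((σ.A x' c : ℤ) : ℝ)) +
          ((σ.t (rep γ) : ℤ) : ℝ) * (((x c : ℤ) : ℝ) - ((x' c : ℤ) : ℝ))) =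
        (((σ.N γ r c : ℤ) : ℝ) - ((σ.N (rep γ) r c : ℤ) : ℝ)) *
          ((B : ℝ) ^ σ.a3 * (((σ.A x c : ℤ) : ℝ) - ((σ.A x' c : ℤ) : ℝ)) +
          ((σ.t γ : ℤ) : ℝ) * (((x c : ℤ) : ℝ) - ((x' c : ℤ) : ℝ))) +
        ((σ.N (rep γ) r c : ℤ) : ℝ) * ((((σ.t γ : ℤ) : ℝ) - ((σ.t (rep γ) : ℤ) : ℝ)) *
          (((x c : ℤ) : ℝ) - ((x' c : ℤ) : ℝ))) := by ring
      rw [hid]
      have f1 : |((σ.N γ r c : ℤ) : ℝ) - ((σ.N (rep γ) r c : ℤ) : ℝ)| ≤ (B : ℝ) ^ σ.a1 / (B : ℝ) ^ Q := by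
        rw [← e1]
        calc |((σ.N γ r c : ℤ) : ℝ) - ((σ.N (rep γ) r c : ℤ) : ℝ)|
            = ((|σ.N γ r c - σ.N (rep γ) r c| : ℤ) : ℝ) := by push_cast; rfl
          _ ≤ (((B : ℤ) ^ (σ.a1 - Q) : ℤ) : ℝ) := by exact_mod_cast hrN r c
          _ = (B : ℝ) ^ (σ.a1 - Q) := by push_cast; rfl
      have f2 : |((σ.t γ : ℤ) : ℝ) - ((σ.t (rep γ) : ℤ) : ℝ)| ≤ (B : ℝ) ^ σ.a3 / (B : ℝ) ^ Q := by
        rw [← e3]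
        calc |((σ.t γ : ℤ) : ℝ) - ((σ.t (rep γ) : ℤ) : ℝ)|
            = ((|σ.t γ - σ.t (rep γ)| : ℤ) : ℝ) := by push_cast; rfl
          _ ≤ (((B : ℤ) ^ (σ.a3 - Q) : ℤ) : ℝ) := by exact_mod_cast hrt
          _ = (B : ℝ) ^ (σ.a3 - Q) := by push_cast; rfl
      have f3 := geo_in σ B R κ D C hB hσ γ hγ k hk x x' hx hx' h c
      have f4 := hσ.nb (rep γ) hrG r c
      have f5 := geo_dx σ B k hB x x' h c
      calc _ ≤ |(((σ.N γ r c : ℤ) : ℝ) - ((σ.N (rep γ) r c : ℤ) : ℝ)) *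
              ((B : ℝ) ^ σ.a3 * (((σ.A x c : ℤ) : ℝ) - ((σ.A x' c : ℤ) : ℝ)) +
              ((σ.t γ : ℤ) : ℝ) * (((x c : ℤ) : ℝ) - ((x' c : ℤ) : ℝ)))| +
            |((σ.N (rep γ) r c : ℤ) : ℝ) * ((((σ.t γ : ℤ) : ℝ) - ((σ.t (rep γ) : ℤ) : ℝ)) *
              (((x c : ℤ) : ℝ) - ((x' c : ℤ) : ℝ)))| := abs_add_le _ _
        _ ≤ (B : ℝ) ^ σ.a1 / (B : ℝ) ^ Q * ((R + 1) * ((B : ℝ) ^ σ.a3 * (B : ℝ) ^ (σ.n - k))) +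
            (D * (B : ℝ) ^ σ.a1) * ((B : ℝ) ^ σ.a3 / (B : ℝ) ^ Q * (B : ℝ) ^ (σ.n - k)) := by
            rw [abs_mul, abs_mul, abs_mul]
            refine add_le_add (mul_le_mul f1 f3 (abs_nonneg _) (by positivity)) ?_
            refine mul_le_mul f4 ?_ (by positivity) (by positivity)
            exact mul_le_mul f2 f5 (abs_nonneg _) (by positivity)
        _ = (R + 1 + D) * (B : ℝ) ^ σ.e k / (B : ℝ) ^ Q := by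
            rw [geo_e σ B k hk]
            ring
    calc _ ≤ ∑ c, |((σ.N γ r c : ℤ) : ℝ) * ((B : ℝ) ^ σ.a3 * (((σ.A x c : ℤ) : ℝ) - ((σ.A x' c : ℤ) : ℝ)) +
          ((σ.t γ : ℤ) : ℝ) * (((x c : ℤ) : ℝ) - ((x' c : ℤ) : ℝ))) -
        ((σ.N (rep γ) r c : ℤ) : ℝ) * ((B : ℝ) ^ σ.a3 * (((σ.A x c : ℤ) : ℝ) - ((σ.A x' c : ℤ) : ℝ)) +
          ((σ.t (rep γ) : ℤ) : ℝ) * (((x c : ℤ) : ℝ) - ((x' c : ℤ) : ℝ)))| := Finset.abs_sum_le_sum_abs _ _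
      _ ≤ ∑ _c : Fin m, (R + 1 + D) * (B : ℝ) ^ σ.e k / (B : ℝ) ^ Q := Finset.sum_le_sum fun c _ => key c
      _ = m * (R + 1 + D) * (B : ℝ) ^ σ.e k / (B : ℝ) ^ Q := by
          rw [Finset.sum_const, Finset.card_univ, Fintype.card_fin, nsmul_eq_mul]
          ring
  · intro k hk x hx
    have hp : (0 : ℤ) < (B : ℤ) ^ (σ.n - k) := by positivity
    have hx0 := (geo_mem σ B x).1 hx
    have hsplit : (B : ℤ) ^ σ.n = (B : ℤ) ^ k * (B : ℤ) ^ (σ.n - k) := by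
      rw [← pow_add]
      congr 1
      omega
    have htr : ∀ c, 0 ≤ σ.tr B k x c ∧ σ.tr B k x c < (B : ℤ) ^ k := by
      intro c
      constructor
      · exact Int.ediv_nonneg (hx0 c).1 hp.le
      · refine Int.ediv_lt_of_lt_mul hp ?_
        rw [← hsplit]
        exact (hx0 c).2
    have hd : ∀ c, 0 ≤ x c - σ.co B k x c ∧ x c - σ.co B k x c < (B : ℤ) ^ (σ.n - k) := by
      intro c
      have a := Int.mul_ediv_add_emod (x c) ((B : ℤ) ^ (σ.n - k))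
      have b := Int.emod_nonneg (x c) hp.ne'
      have d := Int.emod_lt_of_pos (x c) hp
      have e : σ.co B k x c = (B : ℤ) ^ (σ.n - k) * (x c / (B : ℤ) ^ (σ.n - k)) := rfl
      rw [e]
      constructor <;> linarith
    refine ⟨?_, ?_, htr, hd⟩
    · rw [geo_mem]
      intro c
      have e : σ.co B k x c = (B : ℤ) ^ (σ.n - k) * σ.tr B k x c := rfl
      constructor
      · rw [e]
        exact mul_nonneg hp.le (htr c).1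
      · have := (hd c).1
        have := (hx0 c).2
        linarith
    · funext c
      have e : σ.tr B k (σ.co B k x) c = (B : ℤ) ^ (σ.n - k) * σ.tr B k x c / (B : ℤ) ^ (σ.n - k) := rfl
      rw [e]
      exact Int.mul_ediv_cancel_left _ hp.ne'
  · intro k k' hkk hk' x
    funext c
    have e1 : σ.tr B k x c = x c / (B : ℤ) ^ (σ.n - k) := rfl
    have e2 : cl B (k' - k) (σ.tr B k' x) c = x c / (B : ℤ) ^ (σ.n - k') / (B : ℤ) ^ (k' - k) := rfl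
    rw [e1, e2, Int.ediv_ediv_of_nonneg (by positivity), ← pow_add]
    congr 2
    omega

end Pool.Agent.Helper70.SK
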