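import Pool.Agent.Helper70.SK.Stmts
import Pool.Agent.Helper70.SK.Lib

/-! Sticky Kakeya sets, module TH0: upper and lower bounds for the information `Th`. -/

namespace Pool.Agent.Helper70.SK

open Finset Pool.Agent.Helper70.DK

theorem th0_tr {m q : ℕ} (σ : Sy m q) (B : ℕ) (hB : 2 ≤ B) {Ω β : Type} (S : Finset Ω) (x : Ω → Fin m → ℤ)
    (g : Ω → β) (k j : ℕ) (hkj : k ≤ j)
    (h4 : ∀ y : Fin m → ℤ, σ.tr B k y = cl B (j - k) (σ.tr B j y))
    (hg : ∀ ω ∈ S, ∀ ω' ∈ S, g ω = g ω' → σ.tr B k (x ω) = σ.tr B k (x ω')) :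
    cent S (fun ω => σ.tr B j (x ω)) g ≤ m * ((j : ℝ) - k) * Real.log B := by
  classical
  have hp : (0 : ℤ) < (B : ℤ) ^ (j - k) := by positivity
  have h := cent_card S (fun ω => σ.tr B j (x ω)) g ((B ^ (j - k)) ^ m) (by
    intro c
    by_cases hc : ∃ ω0 ∈ S, g ω0 = c
    · obtain ⟨ω0, hω0, rfl⟩ := hc
      refine ⟨Fintype.piFinset (fun i => Finset.Ico ((B : ℤ) ^ (j - k) * σ.tr B k (x ω0) i)
        ((B : ℤ) ^ (j - k) * σ.tr B k (x ω0) i + (B : ℤ) ^ (j - k))), ?_, ?_⟩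
      · rw [Fintype.card_piFinset]
        have : ∀ i : Fin m, (Finset.Ico ((B : ℤ) ^ (j - k) * σ.tr B k (x ω0) i)
            ((B : ℤ) ^ (j - k) * σ.tr B k (x ω0) i + (B : ℤ) ^ (j - k))).card = B ^ (j - k) := by
          intro i
          rw [Int.card_Ico, add_sub_cancel_left]
          have : (B : ℤ) ^ (j - k) = ((B ^ (j - k) : ℕ) : ℤ) := by push_cast; rfl
          rw [this, Int.toNat_natCast]
        rw [Finset.prod_congr rfl fun i _ => this i, Finset.prod_const, Finset.card_univ, Fintype.card_fin]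
      · intro ω hω e
        rw [Fintype.mem_piFinset]
        intro i
        have e1 := hg ω hω ω0 hω0 e
        have e2 : σ.tr B k (x ω0) i = σ.tr B j (x ω) i / (B : ℤ) ^ (j - k) := by
          rw [← e1, h4 (x ω)]
          rfl
        rw [Finset.mem_Ico, e2]
        have a1 := Int.mul_ediv_add_emod (σ.tr B j (x ω) i) ((B : ℤ) ^ (j - k))
        have b1 := Int.emod_nonneg (σ.tr B j (x ω) i) hp.ne'
        have c1 := Int.emod_lt_of_pos (σ.tr B j (x ω) i) hp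
        constructor <;> linarith
    · refine ⟨∅, by simp, ?_⟩
      intro ω hω e
      exact absurd ⟨ω, hω, e⟩ hc)
  refine h.trans (le_of_eq ?_)
  push_cast
  rw [Real.log_pow, Real.log_pow]
  have : ((j - k : ℕ) : ℝ) = (j : ℝ) - k := by
    rw [Nat.cast_sub hkj]
  rw [this]
  ring

theorem th0_Pa {m q : ℕ} (σ : Sy m q) (B : ℕ) (ω : PS m q) (hω : ω ∈ σ.Pa B) :
    ω.1.1.1 ∈ σ.G ∧ ω.1.1.2 ∈ σ.X B := by
  unfold Sy.Pa at hω
  have h1 := (Finset.mem_product.1 hω).1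
  have h2 := (Finset.mem_product.1 h1).1
  unfold Sy.GX at h2
  exact Finset.mem_product.1 h2

theorem st_TH0 (hGEO : ST_GEO) (_hIND : ST_IND) (hDET : ST_DET) (hPARA : ST_PARA) : ST_TH0 := by
  intro m q B R κ D hB hR hD
  have hB1 : (1 : ℝ) ≤ B := by exact_mod_cast (by omega : 1 ≤ B)
  have hB0 : (0 : ℝ) < B := by linarith
  have hL : 0 ≤ Real.log B := Real.log_nonneg hB1
  set M : ℕ := ⌈(m : ℝ) * D * (R + 1)⌉₊ with hM
  have hM1 : (m : ℝ) * D * (R + 1) ≤ M := Nat.le_ceil _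
  refine ⟨q * Real.log (2 * M + 3), by
    refine mul_nonneg (Nat.cast_nonneg _) (Real.log_nonneg ?_)
    have : (0 : ℝ) ≤ M := Nat.cast_nonneg _
    linarith, ?_⟩
  intro σ C V k K g rep hσ hrep hkK hKn hV hV1
  obtain ⟨hG1, -, hG3, hG4⟩ := hGEO m q B R κ D C σ hB hR hD hσ
  have hX1 := (hPARA m q B k K σ).1
  have hx1k : ∀ ω ∈ σ.Pa B, σ.tr B k (σ.x1 B k K ω) = σ.tr B k ω.1.1.2 := by
    intro ω hω
    have := (hX1 ω hω).2
    unfold Sy.ff at this
    exact (Prod.ext_iff.1 (Prod.ext_iff.1 this).2).1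
  constructor
  · intro i hi
    set j := k + i with hj
    have hjn : j ≤ σ.n := by omega
    have t1 : σ.Th B rep k K g j ≤ cent (σ.Pa B) (fun ω => (σ.tr B j ω.1.1.2, σ.tr B j (σ.x1 B k K ω),
        cl B (σ.e (j + g)) (σ.yc B j (rep ω.1.1.1) ω.1.1.2))) (fun ω => (rep ω.1.1.1, σ.tr B k ω.1.1.2)) := by
      unfold Sy.Th
      have := cent_nonneg (σ.Pa B) (fun ω => (σ.tr B j ω.1.1.2, σ.tr B j (σ.x1 B k K ω),
        cl B (σ.e (j + g)) (σ.yc B j (rep ω.1.1.1) ω.1.1.2))) (fun ω => (ω.1.1.1, σ.tr B k ω.1.1.2))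
      linarith
    have t2 := cent_chain (σ.Pa B) (fun ω => σ.tr B j ω.1.1.2) (fun ω => (σ.tr B j (σ.x1 B k K ω),
        cl B (σ.e (j + g)) (σ.yc B j (rep ω.1.1.1) ω.1.1.2))) (fun ω => (rep ω.1.1.1, σ.tr B k ω.1.1.2))
    have t3 := cent_pair_le (σ.Pa B) (fun ω => σ.tr B j (σ.x1 B k K ω)) (fun ω =>
        cl B (σ.e (j + g)) (σ.yc B j (rep ω.1.1.1) ω.1.1.2))
        (fun ω => (σ.tr B j ω.1.1.2, rep ω.1.1.1, σ.tr B k ω.1.1.2))
    have t4 := th0_tr σ B hB (σ.Pa B) (fun ω => ω.1.1.2) (fun ω => (rep ω.1.1.1, σ.tr B k ω.1.1.2)) k j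
      (by omega) (fun y => hG4 k j (by omega) hjn y) (fun ω _ ω' _ e => (Prod.ext_iff.1 e).2)
    have t5 := th0_tr σ B hB (σ.Pa B) (fun ω => σ.x1 B k K ω)
      (fun ω => (σ.tr B j ω.1.1.2, rep ω.1.1.1, σ.tr B k ω.1.1.2)) k j
      (by omega) (fun y => hG4 k j (by omega) hjn y) (fun ω hω ω' hω' e => by
        rw [hx1k ω hω, hx1k ω' hω']
        exact (Prod.ext_iff.1 (Prod.ext_iff.1 e).2).2)
    have t6 := hDET.2.2 (PS m q) ((Fin m → ℤ) × ℕ × (Fin m → ℤ)) q (M * B ^ g) (σ.Pa B)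
      (fun ω => σ.yc B j (rep ω.1.1.1) ω.1.1.2)
      (fun ω => (σ.tr B j ω.1.1.2, rep ω.1.1.1, σ.tr B k ω.1.1.2)) (fun _ _ => 0) ((B : ℤ) ^ σ.e (j + g))
      (by positivity) (by
        intro ω hω r
        obtain ⟨hωG, hωX⟩ := th0_Pa σ B ω hω
        have a := hG3 j hjn ω.1.1.2 hωX
        have b := hG1 (rep ω.1.1.1) (hrep _ hωG) j hjn ω.1.1.2 hωX (σ.co B j ω.1.1.2) a.1 a.2.1.symm r
        have e1 : (B : ℝ) ^ σ.e j = (B : ℝ) ^ g * (B : ℝ) ^ σ.e (j + g) := by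
          rw [← pow_add]
          congr 1
          unfold Sy.e
          omega
        have : (((|σ.yc B j (rep ω.1.1.1) ω.1.1.2 r - 0| : ℤ)) : ℝ) ≤
            ((((M * B ^ g : ℕ) : ℤ) * (B : ℤ) ^ σ.e (j + g) : ℤ) : ℝ) := by
          unfold Sy.yc
          push_cast
          rw [sub_zero]
          refine b.trans ?_
          rw [e1, ← mul_assoc]
          refine mul_le_mul_of_nonneg_right ?_ (by positivity)
          exact mul_le_mul_of_nonneg_right hM1 (by positivity)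
        exact_mod_cast this)
    have t7 : Real.log (2 * ((M * B ^ g : ℕ) : ℝ) + 3) ≤ g * Real.log B + Real.log (2 * M + 3) := by
      have hBg : (1 : ℝ) ≤ (B : ℝ) ^ g := one_le_pow₀ hB1
      have hM0 : (0 : ℝ) ≤ M := Nat.cast_nonneg _
      rw [← Real.log_pow, ← Real.log_mul (by positivity) (by positivity)]
      refine Real.log_le_log (by positivity) ?_
      push_cast
      nlinarith
    have t8 : (q : ℝ) * Real.log (2 * ((M * B ^ g : ℕ) : ℝ) + 3) ≤
        q * (g * Real.log B + Real.log (2 * M + 3)) := mul_le_mul_of_nonneg_left t7 (Nat.cast_nonneg _)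
    have hji : (j : ℝ) - k = i := by
      rw [hj]; push_cast; ring
    rw [hji] at t4 t5
    have t9 : cent (σ.Pa B) (fun ω => cl B (σ.e (j + g)) (σ.yc B j (rep ω.1.1.1) ω.1.1.2))
        (fun ω => (σ.tr B j ω.1.1.2, rep ω.1.1.1, σ.tr B k ω.1.1.2)) ≤
        q * Real.log (2 * ((M * B ^ g : ℕ) : ℝ) + 3) := t6
    linarith
  · intro j hkj hjg
    have hjn : j ≤ σ.n := by omega
    have hjK : j ≤ K := by omega
    set Pa := σ.Pa B with hPa
    set b : PS m q → (Fin m → ℤ) := fun ω => σ.tr B k ω.1.1.2 with hb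
    set gb : PS m q → ℕ × (Fin m → ℤ) := fun ω => (ω.1.1.1, σ.tr B k ω.1.1.2) with hgb
    set A : PS m q → (Fin m → ℤ) × (Fin m → ℤ) :=
      fun ω => (σ.tr B K ω.1.1.2, σ.tr B K (σ.x1 B k K ω)) with hA
    set A' : PS m q → (Fin m → ℤ) × (Fin m → ℤ) :=
      fun ω => (σ.tr B j ω.1.1.2, σ.tr B j (σ.x1 B k K ω)) with hA'
    set Qj : PS m q → (Fin q → ℤ) :=
      fun ω => cl B (σ.e (j + g)) (σ.yc B j (rep ω.1.1.1) ω.1.1.2) with hQj
    set cb : PS m q → ℕ × (Fin m → ℤ) := fun ω => (rep ω.1.1.1, σ.tr B k ω.1.1.2) with hcb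
    have hAA' : ∀ ω ω' : PS m q, A ω = A ω' → A' ω = A' ω' := by
      intro ω ω' e
      have e1 := (Prod.ext_iff.1 e).1
      have e2 := (Prod.ext_iff.1 e).2
      refine Prod.ext ?_ ?_
      · change σ.tr B j ω.1.1.2 = σ.tr B j ω'.1.1.2
        rw [hG4 j K hjK hKn, hG4 j K hjK hKn]
        exact congrArg _ e1
      · change σ.tr B j (σ.x1 B k K ω) = σ.tr B j (σ.x1 B k K ω')
        rw [hG4 j K hjK hKn, hG4 j K hjK hKn (σ.x1 B k K ω')]
        exact congrArg _ e2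
    have s1 : cent Pa A b ≤ cent Pa A' b + cent Pa A (fun ω => (A' ω, b ω)) := by
      rw [← cent_chain]
      exact cent_mono_left Pa A _ b (fun x _ y _ e _ => (Prod.ext_iff.1 e).2)
    have s2 : cent Pa A' gb ≤ cent Pa A gb :=
      cent_mono_left Pa A' A gb (fun x _ y _ e _ => hAA' x y e)
    have s3 : cent Pa A (fun ω => (A' ω, b ω)) ≤ 2 * m * ((K : ℝ) - j) * Real.log B := by
      have u1 := cent_pair_le Pa (fun ω => σ.tr B K ω.1.1.2) (fun ω => σ.tr B K (σ.x1 B k K ω))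
        (fun ω => (A' ω, b ω))
      have u2 := th0_tr σ B hB Pa (fun ω => ω.1.1.2) (fun ω => (A' ω, b ω)) j K hjK
        (fun y => hG4 j K hjK hKn y) (fun ω _ ω' _ e => (Prod.ext_iff.1 (Prod.ext_iff.1 e).1).1)
      have u3 := th0_tr σ B hB Pa (fun ω => σ.x1 B k K ω) (fun ω => (A' ω, b ω)) j K hjK
        (fun y => hG4 j K hjK hKn y) (fun ω _ ω' _ e => (Prod.ext_iff.1 (Prod.ext_iff.1 e).1).2)
      have u4 : cent Pa A (fun ω => (A' ω, b ω)) ≤ cent Pa (fun ω => σ.tr B K ω.1.1.2) (fun ω => (A' ω, b ω)) +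
        cent Pa (fun ω => σ.tr B K (σ.x1 B k K ω)) (fun ω => (A' ω, b ω)) := u1
      linarith
    have s4 : cent Pa A' b ≤ cent Pa A' cb + Real.log V := by
      have u1 := cent_le_add Pa A' b (fun ω => rep ω.1.1.1)
      have u2 : cent Pa (fun ω => rep ω.1.1.1) b ≤ Real.log V := by
        refine cent_card Pa (fun ω => rep ω.1.1.1) b V (fun c => ⟨σ.G.image rep, hV, ?_⟩)
        intro ω hω _
        exact Finset.mem_image_of_mem rep (th0_Pa σ B ω hω).1
      have u3 : cent Pa A' (fun ω => (rep ω.1.1.1, b ω)) = cent Pa A' cb := rfl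
      linarith
    have s5 : cent Pa A' cb - cent Pa A' gb ≤ σ.Th B rep k K g j := by
      have u1 : cent Pa (fun ω => (σ.tr B j ω.1.1.2, σ.tr B j (σ.x1 B k K ω), Qj ω)) cb =
          cent Pa (fun ω => (A' ω, Qj ω)) cb := by
        refine cent_congr_left Pa _ _ cb ?_
        intro x _ y _ _
        simp only [Prod.ext_iff, hA']
        tauto
      have u2 : cent Pa (fun ω => (σ.tr B j ω.1.1.2, σ.tr B j (σ.x1 B k K ω), Qj ω)) gb =
          cent Pa (fun ω => (A' ω, Qj ω)) gb := by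
        refine cent_congr_left Pa _ _ gb ?_
        intro x _ y _ _
        simp only [Prod.ext_iff, hA']
        tauto
      have u3 := cent_chain Pa A' Qj cb
      have u4 := cent_chain Pa A' Qj gb
      have u5 : cent Pa Qj (fun ω => (A' ω, gb ω)) ≤ cent Pa Qj (fun ω => (A' ω, cb ω)) := by
        refine cent_mono_right Pa Qj _ _ ?_
        intro x _ y _ e
        have e1 := (Prod.ext_iff.1 e).1
        have e2 := (Prod.ext_iff.1 e).2
        have e3 : x.1.1.1 = y.1.1.1 := (Prod.ext_iff.1 e2).1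
        have e4 : σ.tr B k x.1.1.2 = σ.tr B k y.1.1.2 := (Prod.ext_iff.1 e2).2
        refine Prod.ext e1 (Prod.ext ?_ e4)
        change rep x.1.1.1 = rep y.1.1.1
        rw [e3]
      have u6 : σ.Th B rep k K g j =
        cent Pa (fun ω => (σ.tr B j ω.1.1.2, σ.tr B j (σ.x1 B k K ω), Qj ω)) cb -
        cent Pa (fun ω => (σ.tr B j ω.1.1.2, σ.tr B j (σ.x1 B k K ω), Qj ω)) gb := rfl
      rw [u6, u1, u2, u3, u4]
      linarith
    have s6 : σ.TW B k K = cent Pa A b - cent Pa A gb := rfl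
    rw [s6]
    linarith

end Pool.Agent.Helper70.SK
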